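import Mathlib
import Pool.Agent.Lib.MP_4af00a_nt.Congr

/-!
Question 1: the congruence modulo `p^6`.
-/

namespace Pool.Agent.Results.MP_4af00a_nt.CongruenceModP6

open Finset

/-- The number `s_n = ∑_{k=0}^n C(n,k)^2 C(2k,k) C(2(n-k),n-k)` of the problem. -/
def s (n : ℕ) : ℕ :=
  ∑ k ∈ range (n + 1), n.choose k ^ 2 * (2 * k).choose k * (2 * (n - k)).choose (n - k)

/-- The Fermat quotient `q_p(2) = (2^(p-1)-1)/p`. -/
def fermatQuotientTwo (p : ℕ) : ℚ := (2 ^ (p - 1) - 1) / p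

/-- `x ≡ y` modulo `p^j`: the difference `x - y` has `p`-adic valuation at least `j`
(the valuation of `0` being infinite). -/
def CongrModPow (p j : ℕ) (x y : ℚ) : Prop :=
  x - y = 0 ∨ (j : ℤ) ≤ padicValRat p (x - y)

/-- For every prime `p > 3`,
`∑_{n=0}^{p-1} (3n^2+n)/16^n s_n ≡ -4 p^4 q_p(2) + 6 p^5 q_p(2)^2 (mod p^6)`. -/
theorem result (p : ℕ) (hp : p.Prime) (h3 : 3 < p) :
    CongrModPow p 6
      (∑ n ∈ range p, (3 * (n : ℚ) ^ 2 + n) / 16 ^ n * (s n : ℚ))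
      (-4 * (p : ℚ) ^ 4 * fermatQuotientTwo p + 6 * (p : ℚ) ^ 5 * fermatQuotientTwo p ^ 2) := by
  have : Fact p.Prime := ⟨hp⟩
  have hA := Pool.Agent.Lib.MP_4af00a_nt.A_cong (p := p) h3
  have hq : Pool.Agent.Lib.MP_4af00a_nt.q p = fermatQuotientTwo p := rfl
  rw [hq] at hA
  have hs : ∀ k, s k = Pool.Agent.Lib.MP_4af00a_nt.domb k := fun _ => rfl
  have hsum : Pool.Agent.Lib.MP_4af00a_nt.A p
      = 16 ^ (p - 1) * ∑ n ∈ range p, (3 * (n : ℚ) ^ 2 + n) / 16 ^ n * (s n : ℚ) := by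
    unfold Pool.Agent.Lib.MP_4af00a_nt.A
    rw [mul_sum]
    apply sum_congr rfl
    intro n hn
    have hn' := mem_range.mp hn
    rw [← hs]
    have : (16 : ℚ) ^ (p - 1) = 16 ^ (p - 1 - n) * 16 ^ n := by
      rw [← pow_add]; congr 1; omega
    rw [this]
    field_simp
  rw [hsum, ← mul_sub] at hA
  have hodd : ¬ p ∣ 2 := Pool.Agent.Lib.MP_4af00a_nt.not_dvd_of_lt (by norm_num) (by omega)
  have h16 : ¬ p ∣ 16 ^ (p - 1) := by
    intro hd
    apply hodd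
    have h1 := hp.dvd_of_dvd_pow hd
    have h2 : p ∣ 2 ^ 4 := by simpa using h1
    exact hp.dvd_of_dvd_pow h2
  have hD := Pool.Agent.Lib.MP_4af00a_nt.D_of_mul_unit (p := p) (j := 6) (k := 16 ^ (p - 1)) h16
    (by push_cast; exact hA)
  unfold CongrModPow
  by_cases h0 : (∑ n ∈ range p, (3 * (n : ℚ) ^ 2 + n) / 16 ^ n * (s n : ℚ)) -
      (-4 * (p : ℚ) ^ 4 * fermatQuotientTwo p + 6 * (p : ℚ) ^ 5 * fermatQuotientTwo p ^ 2) = 0
  · left; exact h0
  · right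
    have hle := hD.le
    rw [padicNorm.eq_zpow_of_nonzero h0] at hle
    have hp1 : (1 : ℚ) < p := by exact_mod_cast hp.one_lt
    have := (zpow_le_zpow_iff_right₀ hp1).mp hle
    omega

end Pool.Agent.Results.MP_4af00a_nt.CongruenceModP6
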