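import Mathlib
import Pool.Agent.Lib.MP_4af00a_nt.Integrality

/-!
Question 2: integrality and parity of `a_m`.
-/

namespace Pool.Agent.Results.MP_4af00a_nt.Integrality

open Finset

/-- The number `s_n = ∑_{k=0}^n C(n,k)^2 C(2k,k) C(2(n-k),n-k)` of the problem. -/
def s (n : ℕ) : ℕ :=
  ∑ k ∈ range (n + 1), n.choose k ^ 2 * (2 * k).choose k * (2 * (n - k)).choose (n - k)

/-- The rational number `a_m = (2 m^3 (m-1))⁻¹ ∑_{n=0}^{m-1} (3n^2+n) 16^(m-1-n) s_n`. -/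
def a (m : ℕ) : ℚ :=
  1 / (2 * (m : ℚ) ^ 3 * (m - 1)) *
    ∑ n ∈ range m, (3 * (n : ℚ) ^ 2 + n) * 16 ^ (m - 1 - n) * (s n : ℚ)

/-- For every `m > 1` the number `a_m` is an integer, and it is odd exactly when `m` is a power
of two. -/
theorem result (m : ℕ) (hm : 1 < m) :
    ∃ z : ℤ, a m = (z : ℚ) ∧ (Odd z ↔ ∃ j : ℕ, m = 2 ^ j) := by
  obtain ⟨n, rfl⟩ : ∃ n, m = n + 1 := ⟨m - 1, by omega⟩
  have hn : 1 ≤ n := by omega
  have hA := Pool.Agent.Lib.MP_4af00a_nt.A_eq_Z n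
  obtain ⟨h1, h2⟩ := Pool.Agent.Lib.MP_4af00a_nt.Z_mod hn
  have hn0 : (n : ℚ) ≠ 0 := by positivity
  have hn1 : ((n : ℚ) + 1) ≠ 0 := by positivity
  have hs : ∀ k, s k = Pool.Agent.Lib.MP_4af00a_nt.domb k := fun _ => rfl
  have ha : a (n + 1) = (Pool.Agent.Lib.MP_4af00a_nt.Z n : ℚ) / 4 := by
    unfold a
    have e : ∑ k ∈ range (n + 1), (3 * (k : ℚ) ^ 2 + k) * 16 ^ (n + 1 - 1 - k) * (s k : ℚ)
      = Pool.Agent.Lib.MP_4af00a_nt.A (n + 1) := by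
      unfold Pool.Agent.Lib.MP_4af00a_nt.A
      simp only [hs]
    rw [e]
    push_cast
    have e2 : Pool.Agent.Lib.MP_4af00a_nt.A (n + 1)
      = ((n : ℚ) + 1) ^ 3 * n * (Pool.Agent.Lib.MP_4af00a_nt.Z n : ℚ) / 2 := by linarith
    rw [e2]
    have e3 : ((n : ℚ) + 1 - 1) = n := by ring
    rw [e3]
    field_simp
    ring
  by_cases hp : ∃ j, n + 1 = 2 ^ j
  · have h := h1 hp
    have h' : (((Pool.Agent.Lib.MP_4af00a_nt.Z n - 4 : ℤ)) : ZMod 8) = 0 := by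
      push_cast; rw [h]; rfl
    rw [ZMod.intCast_zmod_eq_zero_iff_dvd] at h'
    obtain ⟨c, hc⟩ := h'
    push_cast at hc
    refine ⟨2 * c + 1, ?_, ?_⟩
    · rw [ha]
      have : Pool.Agent.Lib.MP_4af00a_nt.Z n = 8 * c + 4 := by omega
      rw [this]; push_cast; ring
    · exact ⟨fun _ => hp, fun _ => ⟨c, by ring⟩⟩
  · have h := h2 hp
    rw [ZMod.intCast_zmod_eq_zero_iff_dvd] at h
    obtain ⟨c, hc⟩ := h
    push_cast at hc
    refine ⟨2 * c, ?_, ?_⟩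
    · rw [ha, hc]; push_cast; ring
    · constructor
      · intro ho
        exact absurd ho (by simp)
      · intro hj
        exact absurd hj hp

end Pool.Agent.Results.MP_4af00a_nt.Integrality
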